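import Mathlib
import Pool.Agent.N437.QR.Stm

/-!
# Project QR (helper437), FAM: finitely many graphs at once (helper521)
-/

set_option autoImplicit false

namespace Pool.Agent.N521.QR

open Finset Filter Topology Pool.Agent.N437.QR

theorem Ex_mono (h1 : S_WT) (h2 : S_QR1) {n d : ℕ} {η p : ℝ} (hη : |η| ≤ 1) (hp : 0 ≤ p)
    (hpd : p * (1 + |η|) ^ d ≤ 1) {Φ Ψ : Finset (Sym2 (Fin n)) → ℝ} (h : ∀ S, Φ S ≤ Ψ S) :
    Ex d η p Φ ≤ Ex d η p Ψ := by
  unfold Ex Av
  refine mul_le_mul_of_nonneg_left ?_ (by positivity)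
  refine Finset.sum_le_sum fun x _ => Finset.sum_le_sum fun S _ => ?_
  exact mul_le_mul_of_nonneg_left (h S) ((h1 (qx d η p x)).2.2 (fun e => h2 d η p hη hp hpd x e) S)

theorem Ex_smul {n d : ℕ} {η p : ℝ} (c : ℝ) (Φ : Finset (Sym2 (Fin n)) → ℝ) :
    Ex d η p (fun S => c * Φ S) = c * Ex d η p Φ := by
  unfold Ex Av
  have h : ∀ x : Fin n → (Fin d → Bool), ∑ S : Finset (Sym2 (Fin n)), Wt (qx d η p x) S * (c * Φ S) =
      c * ∑ S : Finset (Sym2 (Fin n)), Wt (qx d η p x) S * Φ S := by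
    intro x
    rw [Finset.mul_sum]
    exact Finset.sum_congr rfl fun S _ => mul_left_comm _ _ _
  rw [Finset.sum_congr rfl fun x _ => h x, ← Finset.mul_sum, mul_left_comm]

theorem Ex_sum {n d : ℕ} {η p : ℝ} (s : Finset ℕ) (Φ : ℕ → Finset (Sym2 (Fin n)) → ℝ) :
    Ex d η p (fun S => ∑ j ∈ s, Φ j S) = ∑ j ∈ s, Ex d η p (Φ j) := by
  unfold Ex Av
  have h : ∀ x : Fin n → (Fin d → Bool), ∑ S : Finset (Sym2 (Fin n)), Wt (qx d η p x) S *
      ∑ j ∈ s, Φ j S = ∑ j ∈ s, ∑ S : Finset (Sym2 (Fin n)), Wt (qx d η p x) S * Φ j S := by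
    intro x
    rw [Finset.sum_comm]
    exact Finset.sum_congr rfl fun S _ => Finset.mul_sum _ _ _
  rw [← Finset.mul_sum, Finset.sum_congr rfl fun x _ => h x, Finset.sum_comm]

theorem Ex_const (h1 : S_WT) {n d : ℕ} {η p : ℝ} (c : ℝ) :
    Ex d η p (fun _ : Finset (Sym2 (Fin n)) => c) = c := by
  unfold Ex Av
  have h : ∀ x : Fin n → (Fin d → Bool), ∑ S : Finset (Sym2 (Fin n)), Wt (qx d η p x) S * c = c := by
    intro x
    rw [← Finset.sum_mul, (h1 (qx d η p x)).1, one_mul]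
  rw [Finset.sum_congr rfl fun x _ => h x, Finset.sum_const, Finset.card_univ, nsmul_eq_mul,
    ← mul_assoc, inv_mul_cancel₀, one_mul]
  exact_mod_cast Fintype.card_ne_zero

/-- The bound for the numbers of injective maps. -/
theorem desc_bound {n k : ℕ} (hk : 1 ≤ k) (h : 2 * k ≤ n) :
    (n : ℝ) ^ (k - 1) / (n.descFactorial k : ℝ) ≤ 2 ^ k / n := by
  have hn : 0 < n := by omega
  have hD : 0 < n.descFactorial k := Nat.descFactorial_pos.2 (by omega)
  have h1 : n ^ k ≤ 2 ^ k * n.descFactorial k := by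
    calc n ^ k ≤ (2 * (n + 1 - k)) ^ k := Nat.pow_le_pow_left (by omega) k
      _ = 2 ^ k * (n + 1 - k) ^ k := mul_pow _ _ _
      _ ≤ 2 ^ k * n.descFactorial k := Nat.mul_le_mul_left _ (Nat.pow_sub_le_descFactorial n k)
  have h2 : (n : ℝ) ^ k ≤ 2 ^ k * (n.descFactorial k : ℝ) := by exact_mod_cast h1
  rw [div_le_div_iff₀ (by exact_mod_cast hD) (by exact_mod_cast hn), ← pow_succ,
    Nat.sub_add_cancel hk]
  exact h2

/-- The mean square of one of the quantities. -/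
theorem one_bound (h3 : S_VAR) {V : Type} [Fintype V] [DecidableEq V]
    (E : Finset (Sym2 V)) (n d : ℕ) (η p : ℝ) (hη : |η| ≤ 1) (hp : 0 < p)
    (hpd : p * (1 + |η|) ^ d ≤ 1) (hn : 2 * Fintype.card V ≤ n) :
    Ex d η p (fun S : Finset (Sym2 (Fin n)) =>
      ((emb E S : ℝ) / ((n.descFactorial (Fintype.card V) : ℝ) * p ^ E.card) - Zf E η ^ d) ^ 2) ≤
    (Fintype.card V : ℝ) ^ 2 * 2 ^ Fintype.card V * (p⁻¹ ^ (2 * E.card) / n) := by
  set k := Fintype.card V with hk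
  have hD : 0 < n.descFactorial k := Nat.descFactorial_pos.2 (by omega)
  have hD' : (0 : ℝ) < n.descFactorial k := by exact_mod_cast hD
  have hpe : 0 < p ^ E.card := pow_pos hp _
  have e1 : (fun S : Finset (Sym2 (Fin n)) =>
      ((emb E S : ℝ) / ((n.descFactorial k : ℝ) * p ^ E.card) - Zf E η ^ d) ^ 2) =
      fun S : Finset (Sym2 (Fin n)) => (((n.descFactorial k : ℝ) * p ^ E.card) ^ 2)⁻¹ *
        ((emb E S : ℝ) - n.descFactorial k * (p ^ E.card * Zf E η ^ d)) ^ 2 := by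
    funext S
    have hne : (n.descFactorial k : ℝ) * p ^ E.card ≠ 0 := (mul_pos hD' hpe).ne'
    have e2 : (emb E S : ℝ) / ((n.descFactorial k : ℝ) * p ^ E.card) - Zf E η ^ d =
        ((emb E S : ℝ) - n.descFactorial k * (p ^ E.card * Zf E η ^ d)) /
          ((n.descFactorial k : ℝ) * p ^ E.card) := by
      rw [eq_div_iff hne, sub_mul, div_mul_cancel₀ _ hne]
      ring
    rw [e2, div_pow, div_eq_inv_mul]
  rw [e1, Ex_smul]
  refine (mul_le_mul_of_nonneg_left (h3 E n d η p hη hp.le hpd) (by positivity)).trans ?_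
  rw [← hk]
  rcases Nat.eq_zero_or_pos k with h0 | h0
  · rw [h0]
    simp
  · have e3 : (((n.descFactorial k : ℝ) * p ^ E.card) ^ 2)⁻¹ *
        ((k : ℝ) ^ 2 * n.descFactorial k * (n : ℝ) ^ (k - 1)) =
        (k : ℝ) ^ 2 * p⁻¹ ^ (2 * E.card) * ((n : ℝ) ^ (k - 1) / (n.descFactorial k : ℝ)) := by
      rw [inv_pow, pow_mul' p]
      field_simp
    rw [e3]
    refine (mul_le_mul_of_nonneg_left (desc_bound h0 hn) (by positivity)).trans (le_of_eq ?_)
    ring

/-- **FAM.** -/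
theorem t_FAM (h1 : S_WT) (h2 : S_QR1) (h3 : S_VAR) : S_FAM := by
  intro V _ _ E n d m η p δ hη hp hpd hδ hj
  by_contra hcon
  push Not at hcon
  have hm : 0 < m := by
    obtain ⟨j, hj0, -⟩ := hcon ∅
    omega
  have key : δ ^ 2 ≤ ∑ j ∈ range m, (Fintype.card (V j) : ℝ) ^ 2 * 2 ^ Fintype.card (V j) *
      (p⁻¹ ^ (2 * (E j).card) / n) := by
    calc δ ^ 2 = Ex d η p (fun _ : Finset (Sym2 (Fin n)) => δ ^ 2) := (Ex_const h1 _).symm
      _ ≤ Ex d η p (fun S : Finset (Sym2 (Fin n)) => ∑ j ∈ range m,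
          ((emb (E j) S : ℝ) / ((n.descFactorial (Fintype.card (V j)) : ℝ) * p ^ (E j).card) -
            Zf (E j) η ^ d) ^ 2) := by
          refine Ex_mono h1 h2 hη hp.le hpd fun S => ?_
          obtain ⟨j, hj0, hj1⟩ := hcon S
          have e1 : δ ^ 2 ≤ ((emb (E j) S : ℝ) /
              ((n.descFactorial (Fintype.card (V j)) : ℝ) * p ^ (E j).card) -
              Zf (E j) η ^ d) ^ 2 := by
            rw [← sq_abs ((emb (E j) S : ℝ) /
              ((n.descFactorial (Fintype.card (V j)) : ℝ) * p ^ (E j).card) - Zf (E j) η ^ d)]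
            exact pow_le_pow_left₀ hδ.le hj1 2
          refine e1.trans ?_
          exact Finset.single_le_sum (f := fun j => ((emb (E j) S : ℝ) /
              ((n.descFactorial (Fintype.card (V j)) : ℝ) * p ^ (E j).card) -
              Zf (E j) η ^ d) ^ 2) (fun i _ => sq_nonneg _) (Finset.mem_range.2 hj0)
      _ = ∑ j ∈ range m, Ex d η p (fun S : Finset (Sym2 (Fin n)) =>
          ((emb (E j) S : ℝ) / ((n.descFactorial (Fintype.card (V j)) : ℝ) * p ^ (E j).card) -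
            Zf (E j) η ^ d) ^ 2) := Ex_sum _ _
      _ ≤ _ := Finset.sum_le_sum fun j hj0 =>
          one_bound h3 (E j) n d η p hη hp hpd (hj j (Finset.mem_range.1 hj0)).1
  have hm' : (0 : ℝ) < m := by exact_mod_cast hm
  have k1 : (m : ℝ) * δ ^ 2 ≤ ∑ j ∈ range m, (m : ℝ) * ((Fintype.card (V j) : ℝ) ^ 2 *
      2 ^ Fintype.card (V j) * (p⁻¹ ^ (2 * (E j).card) / n)) := by
    rw [← Finset.mul_sum]
    exact mul_le_mul_of_nonneg_left key hm'.le
  have k2 : ∑ j ∈ range m, (m : ℝ) * ((Fintype.card (V j) : ℝ) ^ 2 *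
      2 ^ Fintype.card (V j) * (p⁻¹ ^ (2 * (E j).card) / n)) < ∑ j ∈ range m, δ ^ 2 :=
    Finset.sum_lt_sum_of_nonempty ⟨0, Finset.mem_range.2 hm⟩ fun j hj0 =>
      (hj j (Finset.mem_range.1 hj0)).2
  rw [Finset.sum_const, Finset.card_range, nsmul_eq_mul] at k2
  exact absurd (k1.trans_lt k2) (lt_irrefl _)

end Pool.Agent.N521.QR
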